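import Mathlib
import Pool.Agent.Q189.Spencer3
import Pool.Agent.Q109.VR.Basic

/-!
# MP_6132b6_co: facets of `VR(Q_n; r)` have at least `c r^(2/3)` vertices

The average `y` of the `m` vertices of a facet (as vectors with entries `1`, `-1`) has scalar product at
least `n - 2 r + 2 r / m` with each of them. Rounding `y` to a vertex `z` of the cube costs `O(√m)`
(Spencer). If `m` is less than `c r^(2/3)`, then `z` has distance at most `r - 1` from all vertices of
the facet, so that the `n` neighbours of `z` belong to the facet, a contradiction.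
-/

set_option autoImplicit false

open Finset

namespace Pool.Agent.Results.MP_6132b6_co.TwoThirds

open Pool.Agent.Q109.VR

/-- `F` is a facet of `VR(Q_n; r)`: a nonempty set of vertices of the cube `Q_n` with all Hamming
distances at most `r`, which is not properly contained in another such set -/
def IsFacet {n : ℕ} (r : ℕ) (F : Finset (Fin n → Bool)) : Prop :=
  F.Nonempty ∧ (∀ x ∈ F, ∀ y ∈ F, hammingDist x y ≤ r) ∧
    ∀ G : Finset (Fin n → Bool), F ⊆ G → (∀ x ∈ G, ∀ y ∈ G, hammingDist x y ≤ r) → G ⊆ F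

/-- `s(n; r)`: the minimum size of a facet of `VR(Q_n; r)` -/
noncomputable def s (n r : ℕ) : ℕ :=
  sInf {k | ∃ F : Finset (Fin n → Bool), IsFacet r F ∧ F.card = k}

theorem near {n r : ℕ} (F : Finset (Fin n → Bool)) (hd : ∀ x ∈ F, ∀ y ∈ F, hammingDist x y ≤ r)
    (hne : F.Nonempty) (hr : 2002 * (F.card : ℝ) * √(F.card : ℝ) < r) :
    ∃ z : Fin n → Bool, ∀ x ∈ F, hammingDist z x + 1 ≤ r := by
  classical
  set m := F.card with hm
  have hm0 : 0 < m := hne.card_pos
  have hmR : (1 : ℝ) ≤ m := by exact_mod_cast hm0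
  have hsq : 1 ≤ √(m : ℝ) := by rw [Real.one_le_sqrt]; exact hmR
  let e : Fin m ≃ F := F.equivFin.symm
  set f : Fin m → Fin n → Bool := fun k => (e k).1 with hf
  have hfF : ∀ k, f k ∈ F := fun k => (e k).2
  set a : Fin n → Fin m → ℝ := fun i k => sg (f k i) with ha
  have ha1 : ∀ i k, |a i k| ≤ 1 := by
    intro i k
    show |sg (f k i)| ≤ 1
    unfold sg
    split_ifs <;> norm_num
  set y : Fin n → ℝ := fun i => (∑ l, a i l) / m with hy
  have hy1 : ∀ i, |y i| ≤ 1 := by
    intro i
    show |(∑ l, a i l) / m| ≤ 1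
    rw [abs_div, Nat.abs_cast, div_le_one (by linarith)]
    refine (Finset.abs_sum_le_sum_abs _ _).trans ?_
    refine (Finset.sum_le_sum fun l _ => ha1 i l).trans ?_
    simp
  obtain ⟨x, hx, hxk, S, hS, hxS⟩ := basic a y hy1
  obtain ⟨ε, h1, h2⟩ := Q189.Spencer.rounding a ha1 x hx S hS hxS
  set z : Fin n → Bool := fun i => decide (ε i = 1) with hz
  have hzε : ∀ i, sg (z i) = ε i := by
    intro i
    show sg (decide (ε i = 1)) = ε i
    rcases h1 i with h | h
    · rw [h]; simp [sg]
    · rw [h]; norm_num [sg]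
  have hzk : ∀ k, hammingDist z (f k) + 1 ≤ r := by
    intro k
    have e1 : ∑ i, ε i * a i k = n - 2 * (hammingDist z (f k) : ℝ) := by
      rw [← sum_sg]
      exact Finset.sum_congr rfl fun i _ => by rw [hzε]
    have e2 : ∑ i, y i * a i k = n - 2 * (∑ l, (hammingDist (f l) (f k) : ℝ)) / m := by
      have e3 : ∑ i, y i * a i k = (∑ l, ∑ i, a i l * a i k) / m := by
        rw [Finset.sum_comm, Finset.sum_div]
        refine Finset.sum_congr rfl fun i _ => ?_
        show (∑ l, a i l) / m * a i k = _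
        rw [← Finset.sum_mul]
        ring
      have e4 : ∀ l, ∑ i, a i l * a i k = n - 2 * (hammingDist (f l) (f k) : ℝ) := fun l =>
        sum_sg (f l) (f k)
      rw [e3]
      simp only [e4, Finset.sum_sub_distrib, ← Finset.mul_sum]
      rw [Finset.sum_const, Finset.card_univ, Fintype.card_fin, nsmul_eq_mul]
      field_simp
    have e5 : ∑ l, (hammingDist (f l) (f k) : ℝ) ≤ (m - 1) * r := by
      have e6 : ∀ l, (hammingDist (f l) (f k) : ℝ) ≤ r - (if l = k then (r : ℝ) else 0) := by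
        intro l
        split_ifs with h
        · rw [h, hammingDist_self]; simp
        · rw [sub_zero]
          exact_mod_cast hd _ (hfF l) _ (hfF k)
      refine (Finset.sum_le_sum fun l _ => e6 l).trans ?_
      rw [Finset.sum_sub_distrib, Finset.sum_ite_eq' Finset.univ k, Finset.sum_const,
        Finset.card_univ, Fintype.card_fin, nsmul_eq_mul]
      simp
      linarith
    have e7 : ∑ i, (ε i - x i) * a i k = ∑ i, ε i * a i k - ∑ i, x i * a i k := by
      rw [← Finset.sum_sub_distrib]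
      exact Finset.sum_congr rfl fun i _ => by ring
    have e8 := (abs_le.1 (h2 k)).1
    rw [e7, hxk k, e1, e2] at e8
    have e9 : 2 * (∑ l, (hammingDist (f l) (f k) : ℝ)) / m ≤ 2 * r - 2 * (2002 * √(m : ℝ)) := by
      rw [div_le_iff₀ (by linarith)]
      nlinarith
    have e10 : (hammingDist z (f k) : ℝ) + 1 ≤ r := by nlinarith
    exact_mod_cast e10
  refine ⟨z, fun x hx => ?_⟩
  have h3 := hzk (e.symm ⟨x, hx⟩)
  have h4 : f (e.symm ⟨x, hx⟩) = x := by
    show (e (e.symm ⟨x, hx⟩)).1 = x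
    rw [Equiv.apply_symm_apply]
  rwa [h4] at h3

theorem main {n r : ℕ} (hn : r ≤ n) (F : Finset (Fin n → Bool)) (hF : IsFacet r F) :
    (r : ℝ) ^ (2 / 3 : ℝ) ≤ 159 * (F.card : ℝ) := by
  classical
  obtain ⟨hne, hd, hmax⟩ := hF
  by_contra hcon
  rw [not_le] at hcon
  have hm0 : 0 < F.card := hne.card_pos
  have hmR : (1 : ℝ) ≤ F.card := by exact_mod_cast hm0
  have hsq : 1 ≤ √(F.card : ℝ) := by rw [Real.one_le_sqrt]; exact hmR
  have hs2 : √(F.card : ℝ) ^ 2 = F.card := Real.sq_sqrt (by linarith)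
  have hr : 2002 * (F.card : ℝ) * √(F.card : ℝ) < r := by
    have h1 : ((r : ℝ) ^ (2 / 3 : ℝ)) ^ 3 = (r : ℝ) ^ 2 := by
      rw [← Real.rpow_natCast, ← Real.rpow_mul (Nat.cast_nonneg _), ← Real.rpow_natCast]
      norm_num
    have h2 : (159 * (F.card : ℝ)) ^ 3 < (r : ℝ) ^ 2 := by
      rw [← h1]
      exact pow_lt_pow_left₀ hcon (by positivity) (by norm_num)
    refine lt_of_pow_lt_pow_left₀ 2 (Nat.cast_nonneg _) (lt_of_le_of_lt ?_ h2)
    have h3 : (2002 * (F.card : ℝ) * √(F.card : ℝ)) ^ 2 = 4008004 * (F.card : ℝ) ^ 3 := by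
      rw [mul_pow, hs2]
      ring
    rw [h3]
    have h4 : (0 : ℝ) ≤ (F.card : ℝ) ^ 3 := by positivity
    nlinarith
  obtain ⟨z, hz⟩ := near F hd hne hr
  have hw : ∀ i, Function.update z i (!z i) ∈ F := by
    intro i
    have h1 : ∀ x ∈ F, hammingDist (Function.update z i (!z i)) x ≤ r := fun x hx =>
      (hd_update z x i (!z i)).trans (hz x hx)
    have h2 := hmax (insert (Function.update z i (!z i)) F) (Finset.subset_insert _ _) (by
      intro x hx y hy
      rw [Finset.mem_insert] at hx hy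
      rcases hx with rfl | hx <;> rcases hy with rfl | hy
      · rw [hammingDist_self]; omega
      · exact h1 y hy
      · rw [hammingDist_comm]; exact h1 x hx
      · exact hd x hx y hy)
    exact h2 (Finset.mem_insert_self _ _)
  have hinj : Function.Injective fun i => Function.update z i (!z i) := by
    intro i j hij
    by_contra hne
    have h1 := congrFun hij i
    simp only [Function.update_self, Function.update_of_ne hne] at h1
    cases hzi : z i <;> simp [hzi] at h1
  have h5 : n ≤ F.card := by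
    have h6 := Finset.card_le_card_of_injOn (s := (Finset.univ : Finset (Fin n))) (t := F)
      (fun i => Function.update z i (!z i)) (fun i _ => hw i) (hinj.injOn)
    simpa using h6
  have h7 : (r : ℝ) ≤ F.card := by exact_mod_cast hn.trans h5
  nlinarith

theorem exists_facet (n r : ℕ) : ∃ F : Finset (Fin n → Bool), IsFacet r F := by
  classical
  obtain ⟨F, hF, hmax⟩ := Finset.exists_max_image
    ((Finset.univ : Finset (Finset (Fin n → Bool))).filter
      (fun F => F.Nonempty ∧ ∀ x ∈ F, ∀ y ∈ F, hammingDist x y ≤ r)) Finset.card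
    ⟨{fun _ => false}, by simp⟩
  rw [Finset.mem_filter] at hF
  refine ⟨F, hF.2.1, hF.2.2, fun G hFG hG => ?_⟩
  have h1 := hmax G (by
    rw [Finset.mem_filter]
    exact ⟨Finset.mem_univ _, hF.2.1.mono hFG, hG⟩)
  exact (Finset.eq_of_subset_of_card_le hFG h1).symm.le

/-- **Facets of the Vietoris-Rips complexes of hypercubes have at least `r^(2/3) / 159` vertices.** -/
theorem result (n r : ℕ) (hn : r ≤ n) :
    (∀ F : Finset (Fin n → Bool), IsFacet r F → (r : ℝ) ^ (2 / 3 : ℝ) / 159 ≤ F.card) ∧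
      (r : ℝ) ^ (2 / 3 : ℝ) / 159 ≤ s n r := by
  have h1 : ∀ F : Finset (Fin n → Bool), IsFacet r F → (r : ℝ) ^ (2 / 3 : ℝ) / 159 ≤ F.card := by
    intro F hF
    have h2 := main hn F hF
    rw [div_le_iff₀ (by norm_num)]
    linarith
  refine ⟨h1, ?_⟩
  obtain ⟨F₀, hF₀⟩ := exists_facet n r
  obtain ⟨F, hF, hF2⟩ := Nat.sInf_mem (s := {k | ∃ F : Finset (Fin n → Bool), IsFacet r F ∧ F.card = k})
    ⟨_, F₀, hF₀, rfl⟩
  show (r : ℝ) ^ (2 / 3 : ℝ) / 159 ≤
    ((sInf {k | ∃ F : Finset (Fin n → Bool), IsFacet r F ∧ F.card = k} : ℕ) : ℝ)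
  rw [← hF2]
  exact h1 F hF

end Pool.Agent.Results.MP_6132b6_co.TwoThirds
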